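import Pool.Agent.N882.UE.Regul
import Pool.Agent.N882.UE.Fg

/-!
# MP_51fc19_nt: regulators of zero-cycles and bilinear equations over the integers

`T : Regulators` are the data `M i X = CH_0(X, i) ⊗ ℝ`, `D i X` (Deligne homology), the regulators
`r i X : M (i + 1) X → D i X` and the homology groups `V i X` of the total complex of
`RΓ(X, ℝ^c(0)) → RΓ^BM(X(ℂ), ℝ)⁺ → Hom(RΓ_c(X, ℝ(0)), ℝ)` for the schemes `X` over `ℤ`. For a regular scheme
`X` of dimension `d`, proper and flat over `ℤ`, `r i X` is the map `r_i : M^(2d-1-i) → D^(2d-1-i)` of the
problem. `IsRegulator T` lists the known properties which are used, `FT True X`: `X` is separated and of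
finite type over `ℤ`. `Vanish T X`: `V i X = 0` for all `i`.

`sysS ℤ E` is the affine scheme over `ℤ` given by the bilinear equations
`few ℤ E_l = ∑_{(i, j) ∈ E_l} x_i y_j = 0`, and `opnS f` is the principal open subscheme
`f_1 ⋯ f_r ≠ 0` of the affine space over `ℤ`.
-/

set_option autoImplicit false

open CategoryTheory AlgebraicGeometry Pool.Agent.Y116.UV Pool.Agent.N882.UE Pool.Agent.Q282.UK
  Pool.Agent.Q282.UZ

namespace Pool.Agent.Results.MP_51fc19_nt.BilinearEquations

/-- Q1: the assertion of the problem for all connected regular schemes which are proper and flat over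
`ℤ`. -/
def Question (T : Regulators) : Prop :=
  ∀ X : Sch ℤ, IsModel X → Flat X.hom → Assertion T X

/-- The analogue over finite fields: `CH_0(X, i) ⊗ ℝ = 0`, `i ≥ 1`, for the connected regular schemes which
are proper and not flat over `ℤ` (connected smooth proper varieties over finite fields). -/
def Finite (T : Regulators) : Prop :=
  ∀ X : Sch ℤ, IsModel X → ¬ Flat X.hom → ∀ i : ℤ, 1 ≤ i → Subsingleton (T.M i X)

/-- The groups `V` vanish for the systems of bilinear equations over `ℤ` with coefficients `1` and at most
three terms in every equation. -/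
def ThreeTermSystems (T : Regulators) : Prop :=
  ∀ (a b c : ℕ) (E : Fin c → Finset (Fin a × Fin b)), (∀ l, (E l).card ≤ 3) →
    Vanish T (sysS ℤ E)

/-- The groups `V` vanish for the principal open subschemes `f_1 ⋯ f_r ≠ 0` of affine spaces over `ℤ`, where
the `f_l` are bilinear forms with coefficients `1` and at most three terms. -/
def ThreeTermOpens (T : Regulators) : Prop :=
  ∀ (a b r : ℕ) (E : Fin r → Finset (Fin a × Fin b)), (∀ l, (E l).card ≤ 3) →
    Vanish T (opnS fun l => few ℤ (E l))

/-- **Theorem.** Let `T` be the data of regulators for zero-cycles on the schemes over `ℤ`.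
(1) The following are equivalent: the groups `V` vanish for all arithmetic schemes; for the systems of
bilinear equations over `ℤ` with coefficients `1` and at most three terms in every equation; for the
principal open subschemes `f_1 ⋯ f_r ≠ 0` of affine spaces over `ℤ` defined by bilinear forms of this kind.
(2) Each of these statements implies Q1, for all regular schemes which are proper and flat over `ℤ`.
(3) By the theorem of de Jong on alterations they are equivalent to Q1 together with its analogue over
finite fields. -/
theorem result (T : Regulators) (hT : IsRegulator T) :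
    [(∀ X : Sch ℤ, FT True X → Vanish T X), ThreeTermSystems T, ThreeTermOpens T].TFAE ∧
    (ThreeTermOpens T → Question T) ∧
    (Alterations (fun X => RegularScheme X ∧ ConnectedSpace X.left) →
      (Question T ∧ Finite T ↔ ThreeTermOpens T)) := by
  have hC := clo2_vanish hT
  have h12 : (∀ X : Sch ℤ, FT True X → Vanish T X) ↔ ThreeTermSystems T :=
    three_iff short_int hC.toClo
  have h13 : (∀ X : Sch ℤ, FT True X → Vanish T X) ↔ ThreeTermOpens T := opens_few short_int hC
  refine ⟨?_, fun h X hX hf => (hT.flat X hX hf).mp (h13.mpr h X hX.ft), fun halt => ?_⟩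
  · tfae_have 1 ↔ 2 := h12
    tfae_have 1 ↔ 3 := h13
    tfae_finish
  · rw [← h13]
    constructor
    · rintro ⟨h1, h2⟩
      refine halt _ (alt_vanish hT) fun X hX hp hr => ?_
      have hM : IsModel X := ⟨hX, hp, hr.1, hr.2⟩
      by_cases hf : Flat X.hom
      · exact (hT.flat X hM hf).mpr (h1 X hM hf)
      · exact (hT.finite X hM hf).mpr (h2 X hM hf)
    · intro h
      exact ⟨fun X hX hf => (hT.flat X hX hf).mp (h X hX.ft),
        fun X hX hf => (hT.finite X hX hf).mp (h X hX.ft)⟩

end Pool.Agent.Results.MP_51fc19_nt.BilinearEquations
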